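import Mathlib
import Pool.Agent.H80.HilbDefs
import Pool.Agent.H80.HilbDefs2
import Pool.Agent.H80.HilbSm

open Pool.Agent.H80.Hilb

theorem Pool.Agent.Results.MP_ee5b76_ag.LargeDefect.result (k : Type) [Field k] [IsAlgClosed k]
    (C : ℕ) : ∃ (n e : ℕ) (I : Pts k (MvPolynomial (Fin n) k) e),
      ∀ (d : ℕ) (I' : Pts k (MvPolynomial (Fin n) k) d), I' ∈ Smoothable k n d → I'.1 ≤ I.1 →
        C * e < d :=
  defect C
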